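import Pool.Agent.R575.LL.Main

/-!
MP_b67dab_lc: unique choice on Baire space is not Weihrauch reducible to the compositional product
of the listing problem on Cantor space with itself, not even topologically. So the two-fold
composition of the listing problem is not Weihrauch equivalent to unique choice.
-/

namespace Pool.Agent.Results.MP_b67dab_lc.ListListBelowUC

open Pool.Agent.R575.WC Pool.Agent.R575.LL

theorem result : ¬ WRedProd UC Listing Listing ∧ ¬ TRedProd UC Listing Listing :=
  ⟨not_WRedProd, not_TRedProd⟩

end Pool.Agent.Results.MP_b67dab_lc.ListListBelowUC
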